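import Mathlib
import Pool.Agent.X153.SG.Core

set_option autoImplicit false

/-! # Subgaussian sets of characters on `(ℤ/m)^ℕ` are finite unions of quasi-independent sets -/

open MeasureTheory

noncomputable section

namespace Pool.Agent.Results.MP_080bf7_an.SubgaussianUnion

variable {m : ℕ}

/-- The character `γ_n(t) = exp (2 π i ∑ₖ tₖ nₖ / m)` of `G = (ℤ/m)^ℕ`, for `n` in the dual group,
the group of the finitely supported sequences (the sum `∑ₖ tₖ nₖ` is computed in `ℤ/m`, and its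
representative in `{0, …, m - 1}` is taken). -/
def character (n : ℕ →₀ ZMod m) (t : ℕ → ZMod m) : ℂ :=
  Complex.exp (2 * Real.pi * Complex.I * ((n.sum fun k a => t k * a : ZMod m).val : ℂ) / m)

/-- `‖f‖_{ψ₂} = inf {c > 0 : ∫ exp (|f|² / c²) dμ ≤ e}`. -/
def psi2Norm (μ : Measure (ℕ → ZMod m)) (f : (ℕ → ZMod m) → ℂ) : ℝ :=
  sInf {c : ℝ | 0 < c ∧ ∫ t, Real.exp (‖f t‖ ^ 2 / c ^ 2) ∂μ ≤ Real.exp 1}

/-- `Λ` is subgaussian: `‖∑ a_n γ_n‖_{ψ₂} ≤ C (∑ |a_n|²)^{1/2}` for all finitely supported families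
of complex coefficients on `Λ`. -/
def IsSubgaussian (μ : Measure (ℕ → ZMod m)) (Λ : Set (ℕ →₀ ZMod m)) : Prop :=
  ∃ C : ℝ, ∀ (A : Finset (ℕ →₀ ZMod m)) (a : (ℕ →₀ ZMod m) → ℂ), (A : Set (ℕ →₀ ZMod m)) ⊆ Λ →
    psi2Norm μ (fun t => ∑ n ∈ A, a n * character n t) ≤ C * √(∑ n ∈ A, ‖a n‖ ^ 2)

/-- `Λ` is quasi-independent: `∑ ξ_λ λ = 0` (a sum over a finite subset of `Λ`) with all
`ξ_λ ∈ {-1, 0, 1}` forces all `ξ_λ = 0`. -/
def IsQuasiIndependent (Λ : Set (ℕ →₀ ZMod m)) : Prop :=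
  ∀ A : Finset (ℕ →₀ ZMod m), (A : Set (ℕ →₀ ZMod m)) ⊆ Λ → ∀ ξ : (ℕ →₀ ZMod m) → ℤ,
    (∀ x ∈ A, ξ x = -1 ∨ ξ x = 0 ∨ ξ x = 1) → ∑ x ∈ A, ξ x • x = 0 → ∀ x ∈ A, ξ x = 0

/-- Let `m ≥ 1` (for example `m = 4`), and let `μ` be the normalised Haar measure of
`G = (ℤ/m)^ℕ`. Every subgaussian set of nontrivial characters of `G` is a finite union of
quasi-independent sets. -/
theorem result (m : ℕ) [NeZero m] (μ : Measure (ℕ → ZMod m)) [μ.IsAddHaarMeasure]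
    [IsProbabilityMeasure μ] (Λ : Set (ℕ →₀ ZMod m)) (h0 : 0 ∉ Λ) (hΛ : IsSubgaussian μ Λ) :
    ∃ (k : ℕ) (Q : Fin k → Set (ℕ →₀ ZMod m)),
      (∀ i, IsQuasiIndependent (Q i)) ∧ Λ = ⋃ i, Q i := by
  have hc : ∀ (n : ℕ →₀ ZMod m) (t : ℕ → ZMod m),
      character n t = Pool.Agent.X153.SG.chr n t := by
    intro n t
    unfold character Pool.Agent.X153.SG.chr
    rw [ZMod.stdAddChar_apply, ZMod.toCircle_apply]
  refine Pool.Agent.X153.SG.main μ Λ h0 ?_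
  obtain ⟨C, hC⟩ := hΛ
  refine ⟨C, fun A a hA => ?_⟩
  have h1 := hC A a hA
  simp only [hc] at h1
  exact h1

end Pool.Agent.Results.MP_080bf7_an.SubgaussianUnion
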